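import Pool.Agent.N568.Dg.Defs
import Pool.Agent.N568.Dg.Embed
import Pool.Agent.N568.Dg.Main

/-!
# Intrinsically `n`-linked digraphs exist for every `n`

All definitions used by the statement are in `Pool/Agent/N568/Dg/Defs.lean`.
-/

set_option autoImplicit false

namespace Pool.Agent.Results.MP_4fe900_gt.AllNLinked

open Pool.Agent.N568.Dg

/-- For every `n ≥ 2` there is a digraph which is intrinsically `n`-linked (and which has spatial
embeddings, so that this is not vacuous). -/
theorem result : ∀ n : ℕ, 2 ≤ n →
    ∃ D : DirectedGraph, Nonempty (SpatialEmbedding D) ∧ IntrinsicallyLinked n D := by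
  intro n hn
  obtain ⟨s, rfl⟩ : ∃ s, n = s + 1 := ⟨n - 1, by omega⟩
  exact ⟨complete (Fin (9 * s) × Fin 7), exists_embedding _, main le_rfl (by omega)⟩

end Pool.Agent.Results.MP_4fe900_gt.AllNLinked
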